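import Pool.Agent.Run7.h142.CT.Main

/-!
# The Tate conjecture for abelian varieties over finite fields with complex multiplication by fields
# without rigid pairs is the Tate conjecture in codimension two

Let `E k` be finitely many CM fields without rigid pairs (`NoRigidPairsOver`): for an embedding `x` of
`E k` and an embedding `y` of `E l` which is not `x` or its complex conjugate, some automorphism of the
algebraic closure of `ℚ` fixes `x` and maps `y` to its complex conjugate. This is true for one imaginary
quadratic field, for different imaginary quadratic fields, and for generic CM fields of any degrees, for
instance (`LT/Disc`) if for each `k` some prime number divides the discriminant of `E k`, but its square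
does not divide the product of the discriminants.

Let `N` be a natural number. We consider all abelian varieties over the algebraic closure of the field
with `p` elements which are isogenous to products of simple ones whose Weil numbers belong to the fields
`E k` and have slopes in `(1 / N) ℤ`. (Each abelian variety with complex multiplication by `E k` has such
slopes for some `N`. For `N = 1` these are the ordinary ones.) By the theorem of Honda and Tate there
are, up to isogeny, finitely many simple ones `X j` among them, and the set of their Newton polygons is
*complete* (`IsComplete`): for each `k` each function `h` on the embeddings of `E k` in the
algebraic closure of `ℚ_p` which has the properties of a Newton polygon with slopes in `(1 / N) ℤ`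
(`IsNewton`: slopes between `0` and `1`, in `(1 / N) ℤ`, with sum `1` for complex conjugate embeddings,
depending only on the place) is the Newton polygon of one of the `X j`, or the complex conjugate of `h`
is. In the theorem `X j` are any varieties with such Newton polygons whose cohomology is generated by
algebraic cycles and by the cohomology `H¹` (`HaveWeilNumbers`; `α j = π ^ 2 / q` for an abelian variety
with the Weil number `π`, where `q` is the number of elements of the field of definition).

**Theorem.**
1. The following are equivalent:
   * the Tate conjecture and the semisimplicity of Frobenius (`TateTo b` for all `b`) hold for **all**
     products of any number of copies of the `X j`, in **all** codimensions;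
   * (`TateForFour`) the Tate conjecture holds in codimension one for the products of two of the `X j`,
     and **in codimension two for the products of four** of the `X j` (equal or not).
2. If this is the case and `N` is odd, and if there are no rigid pairs over the field `L`, then for all
   such products `Z` and **all** smooth projective varieties `U` whose Frobenius slopes are determined by
   `L` (for instance if `L` contains the Frobenius eigenvalues of `U`) the Tate conjecture for `Z × U` in
   codimension `m` is equivalent to the Tate conjecture for `U` in the codimensions `m - i` for which
   `Z` has a homologically nontrivial cycle of codimension `i`; similarly with semisimplicity.

For abelian varieties the conjecture in codimension one is the theorem of Tate. So for a generic CM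
field `E` the Tate conjecture for all abelian varieties over finite fields with complex multiplication
by `E`, of all dimensions and in all codimensions, follows from the case of codimension two, on
products of four simple ones. The classes which have to be considered there are the Weil classes in
the tensor product over `E` of four spaces `H¹`. For example let `E` have degree `6` and let `p` split
completely in `E`. There are four isogeny classes of simple ordinary abelian varieties with Weil numbers
in `E`, and only one relation between their Newton polygons: the Tate conjecture for all products of the
four abelian threefolds, the first interesting case, is the Tate conjecture in codimension two for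
the product of all four (the Tate classes on the products of three of them are products of classes of
divisors). For fields of degree `2 g` in which `p` splits completely there are `2 ^ (g - 1)` ordinary ones
(`N = 1`), and the relations between them have rank `2 ^ (g - 1) - g`.

The proof. By the theorem of `RelationLattice` (MP_950c68_ag, the same author) it is enough to consider
the test products of generators of the groups of the relations, with integral coefficients, between the
Newton polygons in `E k`. It is proved here (`CT/Comb`) that for a complete family this group is generated
by the relations of length one, two and four: the Newton polygons are the integral points `v` of a box,
with coordinates of given parity. The relations `v + T = (v + 2 u) + (T - 2 u)`, `T` a vertex, reduce all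
points to `T` and its neighbours; the relation `v + (-v) = 0` and (for even `N`) the relation of length one
given by the supersingular abelian variety do the rest. The cycles of the test products of length four
have codimension two. Long relations, for instance minimal relations between many types, are sums and
differences of short ones with other members of the family, so it is essential that products with all
the `X j` are considered.

Earlier work: Deligne (Hodge cycles on abelian varieties) and Milne (Lefschetz motives and the Tate
conjecture; the Tate conjecture for certain abelian varieties over finite fields): the Hodge classes on
abelian varieties of CM type, and with them the Tate classes, come from Weil classes of arbitrary rank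
(and codimension) on other abelian varieties. Zarhin, Lenstra and Zarhin: one abelian variety with
independent slopes. That for generic fields the Weil classes of codimension two are sufficient is new
as far as I know.
-/

set_option autoImplicit false

open CategoryTheory AlgebraicGeometry NumberField

universe u v

namespace Pool.Agent.Results.MP_0f183b_ag.CodimensionTwo

open Pool.Agent.H914 Pool.Agent.W534 Pool.Agent.TH132.A Pool.Agent.TH121.KT
  Pool.Agent.Run7.h142.LT Pool.Agent.Run7.h142.GT Pool.Agent.Run7.h142.CT VarClass Obj
  WeilCohomology

/-- **For complete families of abelian varieties the Tate conjecture in codimension two for the products
of four of them implies the Tate conjecture for all products.** -/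
theorem result {k : Type u} [Field k] {𝒱 : VarClass k} {ops : CycleOps 𝒱}
    (W : WeilCohomology.{u, v} ops) [IsAlgClosed W.K] (p : ℕ) [Fact p.Prime]
    (Φ : FrobSystem W p) (κ : Type) [Fintype κ] (E : κ → Type) [∀ k, Field (E k)]
    [∀ k, NumberField (E k)] [∀ k, IsCMField (E k)] (s : ℕ) (f : Fin s → κ)
    (α : ∀ j, E (f j)) (X : Fin s → 𝒱.Obj) (e : Fin s → ℕ) (N : ℕ)
    (hα : IsPNumber p α fun _ => 1)
    (hX : HaveWeilNumbers (K := fun j => E (f j)) Φ α X (fun _ => 1) e)
    (hN : IsComplete p α (degs Φ X e) N) :
    (NoRigidPairsOver E ⊥ →
      ((∀ Z, IsProduct W X Z → ∀ b m, TateTo Φ Z b m) ↔ TateForFour Φ X)) ∧
    ∀ L : IntermediateField ℚ (AlgebraicClosure ℚ), NoRigidPairsOver E L → Odd N →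
      TateForFour Φ X → ∀ Z, IsProduct W X Z →
        ∀ (ι : AlgebraicClosure ℚ →+* PadicAlgCl p) (U : 𝒱.Obj), FrobeniusSlopes Φ ι L U →
        ∀ b m, (TateTo Φ (Z.prod U) b m ↔ ∀ i ≤ m, HasCycle W Z i → TateTo Φ U b (m - i)) :=
  ⟨fun hE => tate_iff_four hX hα hE hN, fun _ hE hodd hT _ hZ _ _ hU b m =>
    tate_times_four hX hα hE hodd hN hT hZ hU b m⟩

end Pool.Agent.Results.MP_0f183b_ag.CodimensionTwo
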