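import Pool.Agent.Run7.h142.LT.Fin
import Pool.Agent.Run7.h142.LT.Places
import Pool.Agent.Run7.h142.LT.Disc

/-!
# The Tate conjecture for products of K3 surfaces over finite fields, several of which have the same
# CM field, and for their products with arbitrary varieties

Let `X j` be K3 surfaces of finite height over an algebraic closure of the field with `p` elements (or
other smooth projective varieties with the same kind of cohomology, `HasWeilNumbers`: cubic
fourfolds, curves whose Jacobian is isogenous to a power of a simple abelian variety, of any
dimension). Over a large finite field with `q` elements the transcendental part of `H²(X j)` is the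
sum of eigenspaces of Frobenius for the conjugates of `q α`, where `α` and all its powers generate a
CM field `E`, all complex absolute values of `α` are one, and the `p`-adic embeddings of `E` with
`|α| > 1` belong to one place `v` of `E` (`IsK3Frobenius`). The Tate conjecture is known for `X j` and
for `X j × X j` (Charles, Madapusi Pera, Kim and Madapusi Pera; Ito, Ito and Koshikawa).

Let `E k` be finitely many CM fields. The numbers `α i` belong to `E (f i)`; so many of them may
belong to the same field. The varieties `X j` have the Weil numbers `α (c j)`; so many of them may
have the same Weil number. We assume:

* The fields have no rigid pairs over a field `L` of algebraic numbers (`NoRigidPairsOver`): for an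
  embedding `x` of `E k` and an embedding `y` of `E l` which is not `x` or its complex conjugate, some
  automorphism of the algebraic closure of `ℚ` is the identity on `L`, fixes `x` and maps `y` to its
  complex conjugate (and for each `y` some automorphism is the identity on `L` and maps `y` to its
  complex conjugate). This is true for generic CM fields of any degree. It is a condition on the pairs
  of embeddings only; the Galois groups can be much smaller than in the generic case. By the fourth part
  it is true if for each `k` some prime divides the discriminant of `E k`, but its square does not divide
  the product of the discriminants of all the fields and of a number field whose conjugates generate a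
  field that contains `L`.
* For each `k` the `p`-adic valuations of the numbers `α i` in `E k`, as functions of the embeddings,
  are linearly independent over `ℚ` (`IndependentValuations`). By the third part this is true for
  Frobenius numbers of K3 surfaces if the places `v i` and their complex conjugates are different for
  different `i` with the same field (`DifferentPlaces`). The condition is necessary: a linear relation
  between the valuations gives a product of powers of the `α i` which is a unit at all places, so a
  root of unity, and this gives Tate classes on products of the `X j` which are not combinations of
  products of Tate classes on the `X j × X j'`, if there are not two numbers in the family which are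
  equal up to roots of unity and complex conjugation.

**Theorem.**
1. Let `L = ℚ`. The Tate conjecture and the semisimplicity of Frobenius hold in all codimensions for
   all products of copies of the `X j` (with any multiplicities, also with varieties all of whose
   cohomology is algebraic) **if and only if** the Tate conjecture holds in the middle codimension for
   the products `X j × X j'` of two of the varieties with the same Weil number. So the Tate conjecture
   holds for **all products of K3 surfaces** of finite height with different Weil numbers, of the kind
   above: the surfaces with the same field have different places.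
2. Then for all such products `Z` and **all** smooth projective varieties `U` whose slopes are
   determined by the field `L` (for instance the field generated by the Frobenius eigenvalues of `U`
   and their conjugates) the Tate conjecture for `Z × U` in codimension `m` is equivalent to the Tate
   conjecture for `U` in the codimensions `m - i` for which `Z` has a homologically nontrivial cycle of
   codimension `i`; similarly with semisimplicity. Nothing else is assumed on `U`.

By the theorem of Taelman all Weil polynomials which satisfy the obvious conditions belong to K3
surfaces (over finite extensions, under a hypothesis which is known for all `p ≥ 5` by Ito); so for a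
given CM field `E` of degree at most `20` each suitable place of `E` gives K3 surfaces.

Known before: powers of one K3 surface (Zarhin: ordinary; starting results `K3Powers`, `K3Cubes`,
`K3OddHeight`); products of K3 surfaces with independent CM fields (`MP_0273e8_ag.IndependentFactors`,
for ordinary surfaces) or of different heights (`MP_0fca13_ag.HeightsAtOnePlace`). If two surfaces
have the same CM field then the Galois actions on their Frobenius eigenvalues are the same, and the
relations between them are the new difficulty.

The proof. Suppose that a product of conjugates of the `α i` times a Frobenius eigenvalue of `U` is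
rational up to roots of unity. Let `n i σ` be the multiplicities of `σ (α i)`, and `c i σ` the
difference of the multiplicities of `σ` and its conjugate. The `p`-adic absolute values of the
images under `g` show that `∑ c i σ * log |g σ (α i)|`, the sum over `i` and `σ`, does not change if `g`
is replaced by `h g`, where `h` is the identity on `L`. We sum over all `h` which map a given embedding
`y` of `E k` to `y` or to its complex conjugate. The terms with `g σ` different from `y` and its complex
conjugate cancel since there are no rigid pairs. It follows that
`∑ c i (g⁻¹ y) * log |y (α i)| = 0`, the sum over the `i` with `f i = k`, for all `g` and `y`; so all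
`c i σ` are zero since the valuations are independent. So the Tate classes come from pairs of complex
conjugate eigenvalues. (The passage from the absence of relations to cycles is adapted from the
starting files `TH121/KT` and `Y138`.)
-/

set_option autoImplicit false

open CategoryTheory AlgebraicGeometry NumberField

universe u v

namespace Pool.Agent.Results.MP_950c68_ag.SeveralK3Surfaces

open Pool.Agent.H914 Pool.Agent.W534 Pool.Agent.TH132.A Pool.Agent.TH121.KT
  Pool.Agent.Run7.h142.LT VarClass Obj WeilCohomology

/-- **The Tate conjecture for products of K3 surfaces, several of which have the same CM field.** -/
theorem result :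
    (∀ {k : Type u} [Field k] {𝒱 : VarClass k} {ops : CycleOps 𝒱}
      (W : WeilCohomology.{u, v} ops) [IsAlgClosed W.K] (p : ℕ) [Fact p.Prime]
      (Φ : FrobSystem W p) (κ : Type) [Fintype κ] (E : κ → Type) [∀ k, Field (E k)]
      [∀ k, NumberField (E k)] [∀ k, IsCMField (E k)] (r s : ℕ) (f : Fin r → κ)
      (α : ∀ i, E (f i)) (c : Fin s → Fin r) (X : Fin s → 𝒱.Obj) (e : Fin s → ℕ),
      NoRigidPairsOver E ⊥ → IndependentValuations p f α →
      HasWeilNumbers (K := fun i => E (f i)) Φ α c X e →
        ((∀ Z, IsProduct W X Z → ∀ m, SemisimpleTateIn Φ Z m) ↔ TateForPairs Φ c X)) ∧
    (∀ {k : Type u} [Field k] {𝒱 : VarClass k} {ops : CycleOps 𝒱}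
      (W : WeilCohomology.{u, v} ops) [IsAlgClosed W.K] (p : ℕ) [Fact p.Prime]
      (Φ : FrobSystem W p) (κ : Type) [Fintype κ] (E : κ → Type) [∀ k, Field (E k)]
      [∀ k, NumberField (E k)] [∀ k, IsCMField (E k)] (r s : ℕ) (f : Fin r → κ)
      (α : ∀ i, E (f i)) (c : Fin s → Fin r) (X : Fin s → 𝒱.Obj) (e : Fin s → ℕ)
      (L : IntermediateField ℚ (AlgebraicClosure ℚ)),
      NoRigidPairsOver E L → IndependentValuations p f α →
      HasWeilNumbers (K := fun i => E (f i)) Φ α c X e → TateForPairs Φ c X →
        ∀ Z, IsProduct W X Z → ∀ (ι : AlgebraicClosure ℚ →+* PadicAlgCl p) (U : 𝒱.Obj),
        FrobeniusSlopes Φ ι L U → ∀ m,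
        (TateIn Φ (Z.prod U) m ↔
          ∀ i ≤ m, HasCycle W Z i → TateIn Φ U (m - i)) ∧
        (SemisimpleTateIn Φ (Z.prod U) m ↔
          ∀ i ≤ m, HasCycle W Z i → SemisimpleTateIn Φ U (m - i))) ∧
    (∀ (p : ℕ) [Fact p.Prime] (κ : Type) (E : κ → Type) [∀ k, Field (E k)]
      [∀ k, NumberField (E k)] [∀ k, IsCMField (E k)] (r : ℕ) (a : Fin r → ℕ) (f : Fin r → κ)
      (α : ∀ i, E (f i)), DifferentPlaces p a f α → IndependentValuations p f α) ∧
    ∀ (κ : Type) [Fintype κ] (E : κ → Type) [∀ k, Field (E k)] [∀ k, NumberField (E k)]
      [∀ k, IsCMField (E k)] (F : Type) [Field F] [NumberField F],
      (∀ k, ∃ ℓ : ℕ, ℓ.Prime ∧ (ℓ : ℤ) ∣ discr (E k) ∧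
        ¬ (ℓ : ℤ) ^ 2 ∣ discr F * ∏ l, discr (E l)) →
      ∀ L ≤ IntermediateField.normalClosure ℚ F (AlgebraicClosure ℚ), NoRigidPairsOver E L := by
  refine ⟨?_, ?_, ?_, ?_⟩
  · intro k _ 𝒱 ops W _ p _ Φ κ _ E _ _ _ r s f α c X e hE hα hX
    exact tate_products_iff hX hα hE
  · intro k _ 𝒱 ops W _ p _ Φ κ _ E _ _ _ r s f α c X e L hE hα hX hT Z hZ ι U hU m
    exact tate_times hX hT hα hE hZ hU m
  · intro p _ κ E _ _ _ r a f α h
    exact independent_of_places h
  · intro κ _ E _ _ _ F _ _ h L hL
    exact noRigidPairsOver_of_discr F h hL

end Pool.Agent.Results.MP_950c68_ag.SeveralK3Surfaces
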