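import Mathlib
import Pool.Agent.Run7.h142.TF.Main
import Pool.Agent.Run7.h142.TF.Gen
import Pool.Agent.Y1.TS.Main

/-!
# The Tate conjecture for products of arbitrary smooth varieties with abelian varieties with a Frobenius
element that has several Weil numbers of the same CM fields

Let `E k` be finitely many CM fields and `π k i`, `i : I k`, finitely many Weil numbers for `q = p ^ a`
in `E k`. So many Weil numbers, in particular many abelian varieties over the field with `q` elements
that are not isogenous over any extension, may belong to the same field. We assume:

* The fields have no rigid pairs (`NoRigidPairs`): for a complex embedding `x` of `E k` and a complex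
  embedding `y` of `E l` which is not `x` or its complex conjugate, some automorphism of `ℂ` fixes `x`
  and maps `y` to its complex conjugate. This is true for generic CM fields of any degree; it is a
  condition on the pairs of embeddings only, which is much weaker than that the Galois group is as
  large as possible. By the third part of the theorem (`Criteria`) it is true if for each `k` some
  prime divides the discriminant of `E k`, but its square does not divide the product of the
  discriminants of all the fields.
* For each `k` the slope deviations of the numbers `π k i`, `i : I k`, are linearly independent over
  `ℚ` (`IndependentSlopes`). The slope deviation `dev p a x` is the function `2 ord_p (τ x) - a` of the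
  embeddings `τ` of the field in the algebraic closure of `ℚ_p`; its values are `a (2 λ - 1)` for the
  slopes `λ` of the abelian variety. Nothing else is assumed on the Newton polygons. The condition is
  necessary: a linear relation between the slope deviations for the field `E k` gives a product of
  powers of the numbers `π k i ^ 2 / q` that is a unit at all places, so a root of unity, and this
  relation gives exotic classes on some product of the abelian varieties, if there are no two
  Weil numbers that are conjugate up to roots of unity.

Let `k` be a finitely generated field (of any characteristic), `A` an abelian variety over `k`, and
let `γ` be a Frobenius element of the Galois group `Γ` of `k` at **one** place of good reduction, the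
residue field having `q = p ^ a` elements, for which the characteristic polynomial on the Tate module
`V = V_ℓ (A)` is the product of the minimal polynomials of the Weil numbers `π k i`. Let `U` be an
**arbitrary smooth variety** over `k`, proper or not, and `M = W_b H^b(U, ℚ_ℓ(j))`, or any other
representation of `Γ`, such that

* the eigenvalues of `γ` on `M` are roots of a polynomial `f ≠ 0` with rational coefficients all of
  whose complex roots `α` are unrelated to the fields `E k` (`UnrelatedTo`): a function `n` on the
  complex embeddings of `E k` with `n (conj φ) = - n φ` which is invariant under all automorphisms of
  `ℂ` that fix a power of `α` is zero. This is so if for each embedding `ψ` of `E k` some automorphism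
  which fixes a power of `α` is the complex conjugation on `ψ (E k)`: for instance, if a power of `α`
  lies in a field linearly disjoint from the normal closures of the `E k`, or in a totally real field.
  By the third part of the theorem it is also so if the degree of `α` is less than the degree of
  `E k`, for instance if the Betti number `b_b (U)` is less than the degrees of all the fields `E k`.

The first part of the theorem says (`TateClassesSplit`): **the classes in `H^j(A ^ r) ⊗ M` which are
fixed by an open subgroup of `Γ` are zero for odd `j`, and linear combinations of products of `m` Tate
classes of degree two on `A ^ r` (that is, of divisor classes, by Tate, Zarhin and Faltings) and of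
Tate classes in `M(-m)` for `j = 2 m`.** The classes in `H^j(A ^ r) ⊗ M` are the alternating maps of
`j` variables from `V ^ r` to `M`. So for all these `A` and all these smooth varieties `U` the Tate
conjecture for `A ^ r × U` (all codimensions, all `r`, over all finite extensions) is equivalent to
the Tate conjecture for `U`. If `U` is a point it is the Tate conjecture for all powers of `A`. The
hypotheses on `V` (`IsPolarised`) are the Weil pairing and the semisimplicity (Tate, Zarhin,
Faltings). The abelian variety `A` can be absolutely simple: only its reduction at one place is a
product of several abelian varieties, which may all belong to the same CM field.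

In the second part there is one CM field `E` of degree `2 g` without rigid pairs. We fix an
isomorphism `ν` of the algebraic closure of `ℚ_p` with `ℂ`. A CM type `Φ` of `E`, a function `M` with
nonzero integral values on the complex embeddings of `E` and a real number `c ≠ 0` prescribe the
slopes `(a + c M) / 2` (at the embeddings in `Φ`) and `(a - c M) / 2` (outside of `Φ`) of a Weil number
for `p ^ a` in `E` (`HasType`). (If `p` splits completely in `E` then, by Honda and Tate, all slopes
with rational values between `0` and `a` that are symmetric in this way occur. The case `M = 1`,
`c = a` is the case of ordinary abelian varieties; `M ≠ 0` says that `a / 2` is not a slope.) For given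
weights `M i`, `i < r`, there are `2 ^ (g r)` families of `r` types `Φ i`. **The number of the families
for which the conclusion of the first part is false for some Weil numbers `π i` with the slope types
`Φ i`, `M i` is at most `2 ^ (g r) * (2 ^ r - 1) / 2 ^ g`.** So it is an exponentially small proportion
for fixed `r`. And for all `r ≤ g`, there are families of `r` types for which the conclusion is true
for all Weil numbers with these slopes; more than `g` slope deviations are always linearly dependent.

The starting results (`AllCMTypesTimes` and others) treat one Weil number in each of several
independent fields, for which the question is the nondegeneracy of each of the slope types. If several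
Weil numbers belong to the same field then the Galois actions on their conjugates are the same, and
the relations between them are the new difficulty.

The proof. Suppose that the product of some powers `φ (π k i) ^ n (k, i, φ)` is a power of `q`, up to a
root of unity. Let `c (k, i) φ = n (k, i, φ) - n (k, i, conj φ)`. The `p`-adic valuations of the images
under an automorphism `σ` give `∑ c (k, i) φ * w (k, i) (σ φ) = 0`, the sum over `k`, `i`, `φ`, where
`w (k, i)` is the slope deviation of `π k i`. We sum these relations for all `σ` (of a finite Galois
group) which map a given embedding `φ` of `E k` to a given embedding `ψ`. The terms with embeddings
different from `φ` and `conj φ` cancel, since there are no rigid pairs. So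
`∑ i, c (k, i) φ * w (k, i) ψ = 0` for all `φ`, `ψ`, and `c (k, i) φ = 0` since the slope deviations
are linearly independent. So the angle rank is maximal (`MaximalAngleRank`). If there is a number `ρ`
in the relation then we compare the relation with its images under the automorphisms which fix a power
of `ρ` (starting files, Y1.CT). For the second part: if the signed weights are linearly independent
then the slope deviations are, and the number of the families with a relation is estimated as
follows: a linear subspace of dimension `d` contains at most `2 ^ d` of the `2 ^ g` vectors `(± m φ)`,
`φ` in a fixed CM type, for fixed numbers `m φ ≠ 0`. For the third part: a vector space of odd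
functions which is stable under the automorphisms is of dimension at least `g` if there are no rigid
pairs, and an automorphism that acts as a transposition on the embeddings exists if a prime divides
the discriminant exactly once.
-/

set_option autoImplicit false

namespace Pool.Agent.Results.MP_2a05c8_ag.SeveralWeilNumbers

open NumberField Module Pool.Agent.H204R3.CM Pool.Agent.Y1.CT Pool.Agent.Y1.TS
  Pool.Agent.Run7.h142.JT Pool.Agent.Run7.h142.TF

/-- The families of `r` types for which the splitting of the Tate classes is false for some
Frobenius element with these slope types. -/
def exceptionalFamilies {p : ℕ} [Fact p.Prime] (ν : PadicAlgCl p ≃+* ℂ) (E : Type) [Field E]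
    [NumberField E] [IsCMField E] {r : ℕ} (M : Fin r → (E →+* ℂ) → ℤ) :
    Set (Fin r → Set (E →+* ℂ)) :=
  {Φ | (∀ i, IsCMType (Φ i)) ∧ ¬ ForAllWeil ν (fun _ : Fin r => E) M
    (fun a π => TateClassesSplit (p := p) a (fun _ : Fin r => E) π) Φ}

/-- **The Tate conjecture for `A ^ r × U` is equivalent to the Tate conjecture for `U`, for the
abelian varieties `A` over finitely generated fields with a Frobenius element that has several Weil
numbers with independent slopes in the same CM fields and all unrelated smooth varieties `U`.** -/
theorem result :
    (∀ (p : ℕ) [Fact p.Prime] (a : ℕ) (κ : Type) [Fintype κ] (E : κ → Type) [∀ k, Field (E k)]
      [∀ k, NumberField (E k)] [∀ k, IsCMField (E k)] (I : κ → Type) [∀ k, Fintype (I k)]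
      (π : ∀ k, I k → E k), NoRigidPairs E → IndependentSlopes p a π →
        TateClassesSplit (p := p) a (Fam E I) fun x => π x.1 x.2) ∧
    (∀ (p : ℕ) [Fact p.Prime] (ν : PadicAlgCl p ≃+* ℂ) (E : Type) [Field E] [NumberField E]
      [IsCMField E] (g r : ℕ) (M : Fin r → (E →+* ℂ) → ℤ), finrank ℚ E = 2 * g →
      NoRigidPairs (fun _ : Unit => E) → (∀ i φ, M i φ ≠ 0) →
        (exceptionalFamilies ν E M).ncard * 2 ^ g ≤ (2 ^ r - 1) * 2 ^ (g * r)) ∧ Criteria := by
  refine ⟨?_, ?_, criteria⟩
  · intro p _ a κ _ E _ _ _ I _ π hE hπ
    exact split_of_angle (fun x => adjoin_eq_top hE hπ x.1 x.2) (fun x => hπ.weil x.1 x.2)
      (angle_of_indep hE hπ)
  · intro p _ ν E _ _ _ g r M hg hE hM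
    exact ncard_several_angle ν E hg hE M hM _ fun Φ h a π ha hπ =>
      split_of_angle (fun i => (hπ i).gen) (fun i => (hπ i).weil) (h a π ha hπ)

end Pool.Agent.Results.MP_2a05c8_ag.SeveralWeilNumbers
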