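import Mathlib
import Pool.Agent.Run7.h142.TF.Pole
import Pool.Agent.Run7.h142.TF.TypesInd
import Pool.Agent.Run7.h142.JT.Disc

/-!
# Poles of zeta functions of abelian varieties over finite fields: several Weil numbers of the same CM
fields

Let `E k` be finitely many CM fields and `π k i`, `i : I k`, finitely many Weil numbers for `q = p ^ a`
in `E k`. So many Weil numbers, in particular many abelian varieties over the field with `q` elements
that are not isogenous over any extension, may belong to the same field. We assume:

* The fields have no rigid pairs (`NoRigidPairs`): for a complex embedding `x` of `E k` and a complex
  embedding `y` of `E l` which is not `x` or its complex conjugate, some automorphism of `ℂ` fixes `x`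
  and maps `y` to its complex conjugate. This is true for generic CM fields of any degree; it is a
  condition on the pairs of embeddings only, which is much weaker than that the Galois group is as
  large as possible. By the third part of the theorem it is true if for each `k` some
  prime divides the discriminant of `E k`, but its square does not divide the product of the
  discriminants of all the fields.
* For each `k` the slope deviations of the numbers `π k i`, `i : I k`, are linearly independent over
  `ℚ` (`IndependentSlopes`). The slope deviation `dev p a x` is the function `2 ord_p (τ x) - a` of the
  embeddings `τ` of the field in the algebraic closure of `ℚ_p`; its values are `a (2 λ - 1)` for the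
  slopes `λ` of the abelian variety. Nothing else is assumed on the Newton polygons. The condition is
  necessary: a linear relation between the slope deviations for the field `E k` gives a product of
  powers of the numbers `π k i ^ 2 / q` that is a unit at all places, so a root of unity, and this
  relation gives exotic classes on some product of the abelian varieties, if there are no two
  Weil numbers that are conjugate up to roots of unity.

Let `A` be any product of powers of the simple abelian varieties over the field with `q` elements
that correspond to the `π k i`, or any abelian variety isogenous to such a product; `V` is its first
`ℓ`-adic cohomology (with coefficients extended to the complex numbers) and `F` the Frobenius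
endomorphism. The first part of the theorem says (`PoleOrders`): **for all `s > 0` the zeta function of
`A` over the extension of degree `s` has at `z = n` a pole of order equal to the dimension of the space
spanned by the products of `n` classes of divisors** (the classes `y` of degree two with `F y = q y`,
by the theorem of Tate), which is the rank of the group of cycles of codimension `n` modulo numerical
equivalence. This holds for all integers `n` and all these `A` at once.

In the second part there is one CM field `E` of degree `2 g` without rigid pairs. We fix an
isomorphism `ν` of the algebraic closure of `ℚ_p` with `ℂ`. A CM type `Φ` of `E`, a function `M` with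
nonzero integral values on the complex embeddings of `E` and a real number `c ≠ 0` prescribe the
slopes `(a + c M) / 2` (at the embeddings in `Φ`) and `(a - c M) / 2` (outside of `Φ`) of a Weil number
for `p ^ a` in `E` (`HasType`). (If `p` splits completely in `E` then, by Honda and Tate, all slopes
with rational values between `0` and `a` that are symmetric in this way occur. The case `M = 1`,
`c = a` is the case of ordinary abelian varieties; `M ≠ 0` says that `a / 2` is not a slope.) For given
weights `M i`, `i < r`, there are `2 ^ (g r)` families of `r` types `Φ i`. **The number of the families
for which the conclusion of the first part is false for some Weil numbers `π i` with the slope types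
`Φ i`, `M i` is at most `2 ^ (g r) * (2 ^ r - 1) / 2 ^ g`.** So it is an exponentially small proportion
for fixed `r`. And for all `r ≤ g`, there are families of `r` types for which the conclusion is true
for all Weil numbers with these slopes; more than `g` slope deviations are always linearly dependent.

The starting results treat one Weil number in each of several independent fields (with special
degrees or Galois groups or slopes), for which the question is the nondegeneracy of each of the slope
types. If several
Weil numbers belong to the same field then the Galois actions on their conjugates are the same, and
the relations between them are the new difficulty.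

The proof. Suppose that the product of some powers `φ (π k i) ^ n (k, i, φ)` is a power of `q`, up to a
root of unity. Let `c (k, i) φ = n (k, i, φ) - n (k, i, conj φ)`. The `p`-adic valuations of the images
under an automorphism `σ` give `∑ c (k, i) φ * w (k, i) (σ φ) = 0`, the sum over `k`, `i`, `φ`, where
`w (k, i)` is the slope deviation of `π k i`. We sum these relations for all `σ` (of a finite Galois
group) which map a given embedding `φ` of `E k` to a given embedding `ψ`. The terms with embeddings
different from `φ` and `conj φ` cancel, since there are no rigid pairs. So
`∑ i, c (k, i) φ * w (k, i) ψ = 0` for all `φ`, `ψ`, and `c (k, i) φ = 0` since the slope deviations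
are linearly independent. So all multiplicative relations between the
conjugates of the `π k i` and roots of unity are generated by those of complex conjugate pairs. For the second part: if the signed weights are linearly independent
then the slope deviations are, and the number of the families with a relation is estimated as
follows: a linear subspace of dimension `d` contains at most `2 ^ d` of the `2 ^ g` vectors `(± m φ)`,
`φ` in a fixed CM type, for fixed numbers `m φ ≠ 0`. For the third part: an automorphism that
acts as a transposition on the embeddings of one of the fields, and trivially on those of the others,
exists if a prime divides the product of the discriminants exactly once.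
-/

set_option autoImplicit false

namespace Pool.Agent.Results.MP_557161_ag.SeveralWeilNumbers

open NumberField Module Pool.Agent.H204R3.CM Pool.Agent.Y1.CT
  Pool.Agent.Run7.h142.JT Pool.Agent.Run7.h142.TF

/-- The families of `r` types for which the formula for the orders of the poles is false for some
Weil numbers with these slope types. -/
def exceptionalFamilies {p : ℕ} [Fact p.Prime] (ν : PadicAlgCl p ≃+* ℂ) (E : Type) [Field E]
    [NumberField E] [IsCMField E] {r : ℕ} (M : Fin r → (E →+* ℂ) → ℤ) :
    Set (Fin r → Set (E →+* ℂ)) :=
  {Φ | (∀ i, IsCMType (Φ i)) ∧ ¬ ∀ (a : ℕ) (π : Fin r → E), 0 < a →
    (∀ i, HasType ν a (M i) (Φ i) (π i)) → PoleOrders p a (fun _ : Fin r => E) π}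

/-- **Tate's formula for the orders of the poles of the zeta functions of the abelian varieties of
several Weil numbers with independent slopes in the same CM fields.** -/
theorem result :
    (∀ (p : ℕ) [Fact p.Prime] (a : ℕ) (κ : Type) [Fintype κ] (E : κ → Type) [∀ k, Field (E k)]
      [∀ k, NumberField (E k)] [∀ k, IsCMField (E k)] (I : κ → Type) [∀ k, Fintype (I k)]
      (π : ∀ k, I k → E k), 0 < a → NoRigidPairs E → IndependentSlopes p a π →
        PoleOrders p a (Fam E I) fun x => π x.1 x.2) ∧
    (∀ (p : ℕ) [Fact p.Prime] (ν : PadicAlgCl p ≃+* ℂ) (E : Type) [Field E] [NumberField E]
      [IsCMField E] (g r : ℕ) (M : Fin r → (E →+* ℂ) → ℤ), finrank ℚ E = 2 * g →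
      NoRigidPairs (fun _ : Unit => E) → (∀ i φ, M i φ ≠ 0) →
        (exceptionalFamilies ν E M).ncard * 2 ^ g ≤ (2 ^ r - 1) * 2 ^ (g * r)) ∧
    ∀ (κ : Type) [Fintype κ] (E : κ → Type) [∀ k, Field (E k)] [∀ k, NumberField (E k)]
      [∀ k, IsCMField (E k)], (∀ k, ∃ ℓ : ℕ, ℓ.Prime ∧ (ℓ : ℤ) ∣ discr (E k) ∧
        ¬ (ℓ : ℤ) ^ 2 ∣ ∏ l, discr (E l)) → NoRigidPairs E := by
  refine ⟨?_, ?_, ?_⟩
  · intro p _ a κ _ E _ _ _ I _ π ha hE hπ
    exact poleOrders_of_indep ha hE hπ
  · intro p _ ν E _ _ _ g r M hg hE hM
    refine ncard_several_lin E hg M hM _ fun Φ _ hli a π ha hπ => ?_
    let e : (Σ _ : Unit, Fin r) ≃ Fin r :=
      { toFun := fun x => x.2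
        invFun := fun i => ⟨(), i⟩
        left_inv := fun x => rfl
        right_inv := fun x => rfl }
    exact poleOrders_reindex e (poleOrders_of_indep ha hE (indepSlopes_of_types hli hπ))
  · intro κ _ E _ _ _ h
    exact noRigidPairs_of_discr h

end Pool.Agent.Results.MP_557161_ag.SeveralWeilNumbers
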