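import Mathlib
import Pool.Agent.Run7.h142.TF.Main
import Pool.Agent.Y1.CT.CodimNum

/-!
# Homological and numerical equivalence on products with abelian varieties of several Weil numbers of
the same CM fields

Let `E k` be finitely many CM fields and `π k i`, `i : I k`, finitely many Weil numbers for `q = p ^ a`
in `E k`. So many Weil numbers, in particular many abelian varieties over the field with `q` elements
that are not isogenous over any extension, may belong to the same field. We assume:

* The fields have no rigid pairs (`NoRigidPairs`): for a complex embedding `x` of `E k` and a complex
  embedding `y` of `E l` which is not `x` or its complex conjugate, some automorphism of `ℂ` fixes `x`
  and maps `y` to its complex conjugate. This is true for generic CM fields of any degree; it is a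
  condition on the pairs of embeddings only, which is much weaker than that the Galois group is as
  large as possible. By the third part of the theorem (`Criteria`) it is true if for each `k` some
  prime divides the discriminant of `E k`, but its square does not divide the product of the
  discriminants of all the fields.
* For each `k` the slope deviations of the numbers `π k i`, `i : I k`, are linearly independent over
  `ℚ` (`IndependentSlopes`). The slope deviation `dev p a x` is the function `2 ord_p (τ x) - a` of the
  embeddings `τ` of the field in the algebraic closure of `ℚ_p`; its values are `a (2 λ - 1)` for the
  slopes `λ` of the abelian variety. Nothing else is assumed on the Newton polygons. The condition is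
  necessary: a linear relation between the slope deviations for the field `E k` gives a product of
  powers of the numbers `π k i ^ 2 / q` that is a unit at all places, so a root of unity, and this
  relation gives exotic classes on some product of the abelian varieties, if there are no two
  Weil numbers that are conjugate up to roots of unity.

Let `f (k, i)` be monic polynomials whose complex roots are conjugates of `π k i` (`IsPolyOf`), for
instance the characteristic polynomials of Frobenius of the abelian varieties over the field with `q`
elements in the isogeny classes of the `π k i`. Let `A` be an abelian variety over the field with
`Q = q ^ s` elements which is isogenous to a product of powers of abelian varieties coming from the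
field with `q` elements, with characteristic polynomials `f (k, i)`, and let `Z` be **any** smooth
projective variety over the field with `Q` elements such that

* the eigenvalues `ρ` of Frobenius on the cohomology of `Z` and their conjugates are unrelated to
  the fields `E k` (`UnrelatedTo`): a function `n` on the complex embeddings of `E k` with
  `n (conj φ) = - n φ` which is invariant under all automorphisms of `ℂ` that fix a power of `ρ` is
  zero. This is so if for each embedding `ψ` of `E k` some automorphism which fixes a power of `ρ` is
  the complex conjugation on `ψ (E k)`: for instance, if a power of `ρ` lies in a field linearly
  disjoint from the normal closures of the `E k`, or in a totally real field. By the third part of the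
  theorem it is also so if the degree of `ρ` is less than the degree of `E k`, for instance if the
  Betti numbers of `Z` are less than the degrees of all the fields `E k`.

The first part of the theorem says (`HomNumTimes`): for every `c` **homological and numerical
equivalence coincide for the cycles of codimension `c` on `A × Z` if and only if they coincide for the
cycles of the codimensions `c - j`, `0 ≤ j ≤ dim A`, on `Z`.** If `Z` is a point it is the standard
conjecture D for `A` in all codimensions. The standard conjecture D holds for instance for all cycles
of codimension at most two on `A × Z` if it holds for those of codimension two on `Z`, and for all
cycles on `A × Z` if `Z` is a surface. No conjecture is assumed, and the cohomology is any Weil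
cohomology with algebraically closed coefficient field, for instance `ℓ`-adic cohomology for every `ℓ`,
or crystalline cohomology, with extended coefficients. (For abelian varieties over finite fields Clozel
has proved the conjecture for infinitely many `ℓ`.) The Frobenius endomorphism acts on `CH^j(A × Z)_ℚ`
as multiplication by `Q ^ j`. The framework (`TheoryData`, `IsChow`, `IsWeil`) is the one of helper492:
the Chow groups with their pull-backs, push-forwards and products, and a Weil cohomology theory.

In the second part there is one CM field `E` of degree `2 g` without rigid pairs. We fix an
isomorphism `ν` of the algebraic closure of `ℚ_p` with `ℂ`. A CM type `Φ` of `E`, a function `M` with
nonzero integral values on the complex embeddings of `E` and a real number `c ≠ 0` prescribe the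
slopes `(a + c M) / 2` (at the embeddings in `Φ`) and `(a - c M) / 2` (outside of `Φ`) of a Weil number
for `p ^ a` in `E` (`HasType`). (If `p` splits completely in `E` then, by Honda and Tate, all slopes
with rational values between `0` and `a` that are symmetric in this way occur. The case `M = 1`,
`c = a` is the case of ordinary abelian varieties; `M ≠ 0` says that `a / 2` is not a slope.) For given
weights `M i`, `i < r`, there are `2 ^ (g r)` families of `r` types `Φ i`. **The number of the families
for which the conclusion of the first part is false for some Weil numbers `π i` with the slope types
`Φ i`, `M i` is at most `2 ^ (g r) * (2 ^ r - 1) / 2 ^ g`.** So it is an exponentially small proportion
for fixed `r`. And for all `r ≤ g`, there are families of `r` types for which the conclusion is true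
for all Weil numbers with these slopes; more than `g` slope deviations are always linearly dependent.

The starting results (`AllCMTypesTimes` and others) treat one Weil number in each of several
independent fields, for which the question is the nondegeneracy of each of the slope types. If several
Weil numbers belong to the same field then the Galois actions on their conjugates are the same, and
the relations between them are the new difficulty.

The proof. Suppose that the product of some powers `φ (π k i) ^ n (k, i, φ)` is a power of `q`, up to a
root of unity. Let `c (k, i) φ = n (k, i, φ) - n (k, i, conj φ)`. The `p`-adic valuations of the images
under an automorphism `σ` give `∑ c (k, i) φ * w (k, i) (σ φ) = 0`, the sum over `k`, `i`, `φ`, where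
`w (k, i)` is the slope deviation of `π k i`. We sum these relations for all `σ` (of a finite Galois
group) which map a given embedding `φ` of `E k` to a given embedding `ψ`. The terms with embeddings
different from `φ` and `conj φ` cancel, since there are no rigid pairs. So
`∑ i, c (k, i) φ * w (k, i) ψ = 0` for all `φ`, `ψ`, and `c (k, i) φ = 0` since the slope deviations
are linearly independent. So the angle rank is maximal (`MaximalAngleRank`). If there is a number `ρ`
in the relation then we compare the relation with its images under the automorphisms which fix a power
of `ρ` (starting files, Y1.CT). For the second part: if the signed weights are linearly independent
then the slope deviations are, and the number of the families with a relation is estimated as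
follows: a linear subspace of dimension `d` contains at most `2 ^ d` of the `2 ^ g` vectors `(± m φ)`,
`φ` in a fixed CM type, for fixed numbers `m φ ≠ 0`. For the third part: a vector space of odd
functions which is stable under the automorphisms is of dimension at least `g` if there are no rigid
pairs, and an automorphism that acts as a transposition on the embeddings exists if a prime divides
the discriminant exactly once.
-/

set_option autoImplicit false

namespace Pool.Agent.Results.MP_5f0950_ag.SeveralWeilNumbers

open Pool.Agent.Y1.CT Pool.Agent.Run7.h142.TF

/-- **Homological and numerical equivalence coincide for cycles of codimension `c` on `A × Z` if and
only if they coincide for cycles of the codimensions `c - j` on `Z`, `0 ≤ j ≤ dim A`, for the abelian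
varieties `A` of several Weil numbers with independent slopes in the same CM fields and all unrelated
varieties `Z`.** -/
theorem result :
    HoldsForIndependent (fun I K _ => HomNumTimes (I := I) K) ∧
    HoldsForMostTypes (fun I K _ => HomNumTimes (I := I) K) ∧ Criteria := by
  refine ⟨holdsForIndependent ?_, holdsForMostTypes ?_, criteria⟩
  · intro I K _ q f hq _ hR
    exact homNumTimes hq hR
  · intro I K _ q f hq _ hR
    exact homNumTimes hq hR

end Pool.Agent.Results.MP_5f0950_ag.SeveralWeilNumbers
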