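import Mathlib
import Pool.Agent.Run7.h142.TF.Gen
import Pool.Agent.Run7.h142.TF.Main
import Pool.Agent.Y137.MV.Criteria
import Pool.Agent.TH170.FT.MT

/-!
# The Mumford-Tate conjecture for abelian varieties with one Frobenius element that has several Weil
numbers of the same CM fields

Let `E k` be finitely many CM fields and `π k i`, `i : I k`, finitely many Weil numbers for `q = p ^ a`
in `E k`. So many Weil numbers, in particular many abelian varieties over the field with `q` elements
that are not isogenous over any extension, may belong to the same field. We assume:

* The fields have no rigid pairs (`NoRigidPairs`): for a complex embedding `x` of `E k` and a complex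
  embedding `y` of `E l` which is not `x` or its complex conjugate, some automorphism of `ℂ` fixes `x`
  and maps `y` to its complex conjugate. This is true for generic CM fields of any degree; it is a
  condition on the pairs of embeddings only, which is much weaker than that the Galois group is as
  large as possible. By the third part of the theorem it is true if for each `k` some
  prime divides the discriminant of `E k`, but its square does not divide the product of the
  discriminants of all the fields.
* For each `k` the slope deviations of the numbers `π k i`, `i : I k`, are linearly independent over
  `ℚ` (`IndependentSlopes`). The slope deviation `dev p a x` is the function `2 ord_p (τ x) - a` of the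
  embeddings `τ` of the field in the algebraic closure of `ℚ_p`; its values are `a (2 λ - 1)` for the
  slopes `λ` of the abelian variety. Nothing else is assumed on the Newton polygons. The condition is
  necessary: a linear relation between the slope deviations for the field `E k` gives a product of
  powers of the numbers `π k i ^ 2 / q` that is a unit at all places, so a root of unity, and this
  relation gives exotic classes on some product of the abelian varieties, if there are no two
  Weil numbers that are conjugate up to roots of unity.

Let `A` be an abelian variety over a finitely generated subfield `K` of the complex numbers, of any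
dimension and with arbitrary endomorphisms. Suppose that `A` has good reduction at ONE closed point
`v` (of a model of `K`, with residue field of `q = p ^ a` elements) such that the characteristic
polynomial of the Frobenius element is the product of the minimal polynomials of the Weil numbers
`π k i` (`HasFrobenius`). So the reduction of `A` is isogenous to a product of simple abelian varieties
many of which may have the same field `E k` as endomorphism algebra; `A` itself can be absolutely
simple, or a product.

Then (`MumfordTateFor`), for all primes `ℓ`, **all Tate classes in the tensor powers of `H^1` (and so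
in the cohomology of all powers of `A`) are linear combinations of Hodge classes, and even of products
of Hodge classes of degree two.** Together with the theorem of Deligne (Hodge classes are Tate classes)
this is the equality of the Mumford-Tate group (over `ℚ_ℓ`) and of the connected component of the
`ℓ`-adic monodromy group: both are reductive (Faltings), so that they are determined by their
invariants in the spaces `(H^1)^{⊗ 2 m}(m)`. So the Mumford-Tate conjecture holds for `A` and for all
motives in the tannakian category generated by `H^1(A)`. Moreover, all these classes are algebraic
(Lefschetz), so that the motivic Galois group is the same group, and the Hodge and the Tate conjecture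
hold for all powers of `A`. By the theorem of Commelin the motivated Mumford-Tate conjecture holds then
also for the products of these `A` with each other and with all abelian motives for which it is known.

In the formal statement (`IsRealization`) `W` is `H_1(A, ℚ)`, `T` the tangent space at the origin and
`per : W → T` the inclusion, `ω₀` is the form given by a polarization; `V` is the rational Tate module
with the comparison map `comp : W → V`, the action `ρ` of the Galois group and the Weil pairing `ω`;
`χ` is the cyclotomic character. The theorems of Faltings on endomorphisms and on semisimplicity are
part of the data.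

In the second part there is one CM field `E` of degree `2 g` without rigid pairs. We fix an
isomorphism `ν` of the algebraic closure of `ℚ_p` with `ℂ`. A CM type `Φ` of `E`, a function `M` with
nonzero integral values on the complex embeddings of `E` and a real number `c ≠ 0` prescribe the
slopes `(a + c M) / 2` (at the embeddings in `Φ`) and `(a - c M) / 2` (outside of `Φ`) of a Weil number
for `p ^ a` in `E` (`HasType`). (If `p` splits completely in `E` then, by Honda and Tate, all slopes
with rational values between `0` and `a` that are symmetric in this way occur. The case `M = 1`,
`c = a` is the case of ordinary abelian varieties; `M ≠ 0` says that `a / 2` is not a slope.) For given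
weights `M i`, `i < r`, there are `2 ^ (g r)` families of `r` types `Φ i`. **The number of the families
for which the conclusion is false for some Weil numbers `π i` with the slope types `Φ i`, `M i`, some
`A` and some `ℓ` is at most `2 ^ (g r) * (2 ^ r - 1) / 2 ^ g`.** So it is an exponentially small proportion
for fixed `r`. And for all `r ≤ g`, there are families of `r` types for which the conclusion is true
for all Weil numbers with these slopes; more than `g` slope deviations are always linearly dependent.

The starting results (`OneFrobeniusMumfordTate` and others) treat one Weil number in each of several
independent fields, for which the question is the nondegeneracy of each of the slope types. If several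
Weil numbers belong to the same field then the Galois actions on their conjugates are the same, and
the relations between them are the new difficulty.

The proof. Suppose that the product of some powers `φ (π k i) ^ n (k, i, φ)` is a power of `q`, up to a
root of unity. Let `c (k, i) φ = n (k, i, φ) - n (k, i, conj φ)`. The `p`-adic valuations of the images
under an automorphism `σ` give `∑ c (k, i) φ * w (k, i) (σ φ) = 0`, the sum over `k`, `i`, `φ`, where
`w (k, i)` is the slope deviation of `π k i`. We sum these relations for all `σ` (of a finite Galois
group) which map a given embedding `φ` of `E k` to a given embedding `ψ`. The terms with embeddings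
different from `φ` and `conj φ` cancel, since there are no rigid pairs. So
`∑ i, c (k, i) φ * w (k, i) ψ = 0` for all `φ`, `ψ`, and `c (k, i) φ = 0` since the slope deviations
are linearly independent. So the angle rank is maximal (`MaximalAngleRank`): there are no multiplicative
relations between the eigenvalues of `γ`, except for the trivial ones. So the Lie algebra of the
endomorphisms of `V` that kill all Tate classes contains a Cartan subalgebra of the symplectic Lie
algebra, and the Tate classes are generated in degree two (starting files, H204R3). For the second part: if the signed weights are linearly independent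
then the slope deviations are, and the number of the families with a relation is estimated as
follows: a linear subspace of dimension `d` contains at most `2 ^ d` of the `2 ^ g` vectors `(± m φ)`,
`φ` in a fixed CM type, for fixed numbers `m φ ≠ 0`. For the third part: an automorphism that
acts as a transposition on the embeddings of one of the fields, and trivially on those of the others,
exists if a prime divides the product of the discriminants exactly once.
-/

set_option autoImplicit false

namespace Pool.Agent.Results.MP_b8862a_ag.SeveralWeilNumbers

open NumberField Module Pool.Agent.H204R3.CM Pool.Agent.H204R3.GP Pool.Agent.TH170.FT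
  Pool.Agent.Run7.h142.JT Pool.Agent.Run7.h142.TF

/-- The Mumford-Tate conjecture, in the strong form that all Tate classes are combinations of products
of Hodge classes of degree two, for all abelian varieties with a Frobenius element whose characteristic
polynomial is the product of the minimal polynomials of the Weil numbers `π i` for `p ^ a`, and all
prime numbers `ℓ`. -/
def MumfordTateFor (p a : ℕ) {I : Type} [Fintype I] (K : I → Type) [∀ i, Field (K i)]
    [∀ i, NumberField (K i)] (π : ∀ i, K i) : Prop :=
  ∀ (ℓ : ℕ) [Fact ℓ.Prime] (W T V Γ : Type) [AddCommGroup W] [Module ℚ W] [AddCommGroup T]
    [Module ℂ T] [AddCommGroup V] [Module ℚ_[ℓ] V] [FiniteDimensional ℚ_[ℓ] V] [Group Γ]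
    (per : W →+ T) (ω₀ : W →ₗ[ℚ] W →ₗ[ℚ] ℚ) (comp : W →+ V) (ρ : Representation ℚ_[ℓ] Γ V)
    (χ : Γ →* ℚ_[ℓ]) (ω : V →ₗ[ℚ_[ℓ]] V →ₗ[ℚ_[ℓ]] ℚ_[ℓ]),
    IsRealization per ω₀ comp ρ χ ω → HasFrobenius ρ χ p a π → MumfordTateStrong per comp ρ χ

theorem mumfordTateFor_of_angle {p : ℕ} [Fact p.Prime] {a : ℕ} (ha : 0 < a) {I : Type} [Fintype I]
    {K : I → Type} [∀ i, Field (K i)] [∀ i, NumberField (K i)] [∀ i, IsCMField (K i)]
    {π : ∀ i, K i} (hgen : ∀ i, IntermediateField.adjoin ℚ {π i} = ⊤)
    (hw : ∀ i, π i * IsCMField.complexConj (K i) (π i) = (p : K i) ^ a)
    (hang : Pool.Agent.Y137.MV.MaximalAngleRank (p ^ a) π) : MumfordTateFor p a K π := by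
  intro ℓ _ W T V Γ _ _ _ _ _ _ _ _ per ω₀ comp ρ χ ω hR hF
  obtain ⟨L, hL1, hL2, j, h⟩ := Pool.Agent.H204R3.CM.exists_galois K
  exact mumfordTate ha hgen hw j h (Pool.Agent.Y137.MV.neat_of_angle j hang) hR hF

/-- The families of `r` types for which the Mumford-Tate conjecture is false for some abelian variety
with a Frobenius element with these slope types. -/
def exceptionalFamilies {p : ℕ} [Fact p.Prime] (ν : PadicAlgCl p ≃+* ℂ) (E : Type) [Field E]
    [NumberField E] [IsCMField E] {r : ℕ} (M : Fin r → (E →+* ℂ) → ℤ) :
    Set (Fin r → Set (E →+* ℂ)) :=
  {Φ | (∀ i, IsCMType (Φ i)) ∧ ¬ ∀ (a : ℕ) (π : Fin r → E), 0 < a →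
    (∀ i, Pool.Agent.Y1.CT.HasType ν a (M i) (Φ i) (π i)) →
      MumfordTateFor p a (fun _ : Fin r => E) π}

/-- **The Mumford-Tate conjecture for the abelian varieties with one Frobenius element that has
several Weil numbers with independent slopes in the same CM fields.** -/
theorem result :
    (∀ (p : ℕ) [Fact p.Prime] (a : ℕ) (κ : Type) [Fintype κ] (E : κ → Type) [∀ k, Field (E k)]
      [∀ k, NumberField (E k)] [∀ k, IsCMField (E k)] (I : κ → Type) [∀ k, Fintype (I k)]
      (π : ∀ k, I k → E k), 0 < a → NoRigidPairs E → IndependentSlopes p a π →
        MumfordTateFor p a (Fam E I) fun x => π x.1 x.2) ∧
    (∀ (p : ℕ) [Fact p.Prime] (ν : PadicAlgCl p ≃+* ℂ) (E : Type) [Field E] [NumberField E]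
      [IsCMField E] (g r : ℕ) (M : Fin r → (E →+* ℂ) → ℤ), finrank ℚ E = 2 * g →
      NoRigidPairs (fun _ : Unit => E) → (∀ i φ, M i φ ≠ 0) →
        (exceptionalFamilies ν E M).ncard * 2 ^ g ≤ (2 ^ r - 1) * 2 ^ (g * r)) ∧
    ∀ (κ : Type) [Fintype κ] (E : κ → Type) [∀ k, Field (E k)] [∀ k, NumberField (E k)]
      [∀ k, IsCMField (E k)], (∀ k, ∃ ℓ : ℕ, ℓ.Prime ∧ (ℓ : ℤ) ∣ discr (E k) ∧
        ¬ (ℓ : ℤ) ^ 2 ∣ ∏ l, discr (E l)) → NoRigidPairs E := by
  refine ⟨?_, ?_, ?_⟩
  · intro p _ a κ _ E _ _ _ I _ π ha hE hπ
    exact mumfordTateFor_of_angle (K := Fam E I) ha (fun x => adjoin_eq_top hE hπ x.1 x.2)
      (fun x => hπ.weil x.1 x.2) (angle_of_indep hE hπ)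
  · intro p _ ν E _ _ _ g r M hg hE hM
    exact ncard_several_angle ν E hg hE M hM _ fun Φ h a π ha hπ =>
      mumfordTateFor_of_angle ha (fun i => (hπ i).gen) (fun i => (hπ i).weil) (h a π ha hπ)
  · intro κ _ E _ _ _ h
    exact noRigidPairs_of_discr h

end Pool.Agent.Results.MP_b8862a_ag.SeveralWeilNumbers
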